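import Pool.Agent.H906.BD.Q.Main
import Pool.Agent.H906.BD.Q.KodLe

/-! # The Campana-Peternell inequality for manifolds uniformised by `D × ℂ^b`

Let `D ⊆ ℂ^a` be an arbitrary bounded domain and let a group `Δ` act by biholomorphic maps, properly
discontinuously and with compact quotient `X`, on `D × ℂ^b`. We assume that `X` is Kähler and that a
subgroup of finite index of `Δ` preserves the splitting of the tangent bundle into `T_D` and the `b`
coordinate lines of `ℂ^b`. We prove: `κ(X) = a`, and if `K_X ~_ℚ A + B` with an effective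
`ℚ`-divisor `A` and a pseudo-effective `ℚ`-divisor `B`, then `κ(A) ≤ κ(X)`.

After multiplication by a positive integer `m`, `A` is an effective Cartier divisor, given by local
equations `s`, and `m K_X - A` is pseudo-effective: it has a singular metric with semipositive
curvature current. Such a metric is the same as a metric `E` on `m K_X` with semipositive curvature
which vanishes along `A`, in the sense that `E / |s|` is locally bounded (plurisubharmonic functions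
which are locally bounded above extend across `A`). -/

open Matrix Filter Topology
open scoped ComplexOrder

namespace Pool.Agent.Results.MP_370cf3_ag.BoundedDomainTimesCb

/-- The space `ℂ^a × ℂ^b`. -/
abbrev Pt (a b : ℕ) := Fin a ⊕ Fin b → ℂ

/-- The component in `ℂ^a`. -/
def proj {a b : ℕ} (x : Pt a b) : Fin a → ℂ := fun i => x (Sum.inl i)

/-- The complex manifold `D × ℂ^b`. -/
def Dom {a : ℕ} (D : Set (Fin a → ℂ)) (b : ℕ) : Set (Pt a b) := {x | proj x ∈ D}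

/-- `D` is a bounded domain of `ℂ^a`. -/
structure IsBoundedDomain {a : ℕ} (D : Set (Fin a → ℂ)) : Prop where
  isOpen : IsOpen D
  connected : IsConnected D
  bounded : Bornology.IsBounded D

/-- The complex Jacobian matrix `(∂ f_k / ∂ x_i)` of `f`. -/
noncomputable def Jac {a b : ℕ} (f : Pt a b → Pt a b) (x : Pt a b) :
    Matrix (Fin a ⊕ Fin b) (Fin a ⊕ Fin b) ℂ :=
  Matrix.of fun k i => fderiv ℂ f x (Pi.single i 1) k

/-- The group `Δ` acts on `D × ℂ^b` by holomorphic maps, properly discontinuously and with compact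
quotient `X`. -/
structure IsUniform {a b : ℕ} (D : Set (Fin a → ℂ)) {Δ : Type*} [Group Δ]
    (ρ : Δ → Pt a b → Pt a b) : Prop where
  maps : ∀ δ, ∀ x ∈ Dom D b, ρ δ x ∈ Dom D b
  one : ∀ x ∈ Dom D b, ρ 1 x = x
  mul : ∀ δ ε, ∀ x ∈ Dom D b, ρ (δ * ε) x = ρ δ (ρ ε x)
  hol : ∀ δ, DifferentiableOn ℂ (ρ δ) (Dom D b)
  properlyDiscontinuous : ∀ K ⊆ Dom D b, IsCompact K → {δ : Δ | (ρ δ '' K ∩ K).Nonempty}.Finite
  cocompact : ∃ K ⊆ Dom D b, IsCompact K ∧ ∀ x ∈ Dom D b, ∃ δ, ρ δ x ∈ K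

/-- The elements of `Δ0` preserve the subbundle `T_D` of the tangent bundle of `D × ℂ^b` and each
of the `b` coordinate line subbundles of `ℂ^b`: the entries of their Jacobian matrices vanish
outside of the block of `D` and of the diagonal. -/
def PreservesSplitting {a b : ℕ} (D : Set (Fin a → ℂ)) {Δ : Type*} [Group Δ]
    (ρ : Δ → Pt a b → Pt a b) (Δ0 : Subgroup Δ) : Prop :=
  ∀ δ ∈ Δ0, ∀ x ∈ Dom D b,
    (∀ (j : Fin b) (k : Fin a ⊕ Fin b), k ≠ Sum.inr j → Jac (ρ δ) x k (Sum.inr j) = 0) ∧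
    ∀ (i : Fin a) (j : Fin b), Jac (ρ δ) x (Sum.inr j) (Sum.inl i) = 0

/-- The derivative `∂ f / ∂ x_k = (∂ f / ∂ Re x_k - i ∂ f / ∂ Im x_k) / 2`. -/
noncomputable def partialZ {a b : ℕ} (k : Fin a ⊕ Fin b) (f : Pt a b → ℂ) (x : Pt a b) : ℂ :=
  (fderiv ℝ f x (Pi.single k 1) - Complex.I * fderiv ℝ f x (Pi.single k Complex.I)) / 2

/-- `i ∑ g_{jk} d x_j ∧ d \bar x_k` is a Kähler form on the quotient: the matrix `g` is of class
`C^1` and positive definite, the form is closed and it is invariant under `Δ`. -/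
structure IsKahler {a b : ℕ} (D : Set (Fin a → ℂ)) {Δ : Type*} [Group Δ]
    (ρ : Δ → Pt a b → Pt a b)
    (g : Pt a b → Matrix (Fin a ⊕ Fin b) (Fin a ⊕ Fin b) ℂ) : Prop where
  smooth : ∀ i j, ContDiffOn ℝ 1 (fun x => g x i j) (Dom D b)
  pos : ∀ x ∈ Dom D b, (g x).PosDef
  closed : ∀ x ∈ Dom D b, ∀ i j k,
    partialZ i (fun y => g y j k) x = partialZ j (fun y => g y i k) x
  invariant : ∀ δ, ∀ x ∈ Dom D b,
    (Jac (ρ δ) x)ᵀ * g (ρ δ x) * (Jac (ρ δ) x).map star = g x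

/-- `F (dx_1 ∧ ... ∧ dx_n)^l` is a section of the `l`-th power of the canonical bundle of the
quotient. -/
def IsPluricanonical {a b : ℕ} (D : Set (Fin a → ℂ)) {Δ : Type*} [Group Δ]
    (ρ : Δ → Pt a b → Pt a b) (l : ℕ) (F : Pt a b → ℂ) : Prop :=
  DifferentiableOn ℂ F (Dom D b) ∧
    ∀ δ, ∀ x ∈ Dom D b, F (ρ δ x) * (Jac (ρ δ) x).det ^ l = F x

/-- `κ(X) ≥ p`: some power `l ≥ 1` of `K_X` has `p + 1` sections `F_0, ..., F_p` whose quotients
`F_i / F_0`, `i ≥ 1`, have linearly independent differentials at some point (for `p = 0`: a nonzero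
section). -/
def KodairaGe {a b : ℕ} (D : Set (Fin a → ℂ)) {Δ : Type*} [Group Δ] (ρ : Δ → Pt a b → Pt a b)
    (p : ℕ) : Prop :=
  ∃ l, 1 ≤ l ∧ ∃ F : Fin (p + 1) → Pt a b → ℂ, (∀ i, IsPluricanonical D ρ l (F i)) ∧
    ∃ x₀ ∈ Dom D b, F 0 x₀ ≠ 0 ∧
      LinearIndependent ℂ fun i : Fin p => fderiv ℂ (fun x => F i.succ x / F 0 x) x₀

/-- The functions `s p` on the neighbourhoods `V p` of the points `p` of `D × ℂ^b` are local
equations of an effective Cartier divisor `A` on `X`: `s p` is holomorphic, its zero set is nowhere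
dense, and `s p` and `s q ∘ ρ δ` differ by a nowhere vanishing holomorphic factor where both are
defined, for all `δ ∈ Δ`. The preimage of the support of `A` is `{x | s x x = 0}`. -/
structure IsEffectiveDivisor {a b : ℕ} (D : Set (Fin a → ℂ)) {Δ : Type*} [Group Δ]
    (ρ : Δ → Pt a b → Pt a b) (V : Pt a b → Set (Pt a b)) (s : Pt a b → Pt a b → ℂ) : Prop where
  isOpen : ∀ p ∈ Dom D b, IsOpen (V p)
  mem : ∀ p ∈ Dom D b, p ∈ V p
  sub : ∀ p ∈ Dom D b, V p ⊆ Dom D b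
  hol : ∀ p ∈ Dom D b, DifferentiableOn ℂ (s p) (V p)
  dense : ∀ p ∈ Dom D b, V p ⊆ closure {x | x ∈ V p ∧ s p x ≠ 0}
  invariant : ∀ δ, ∀ p ∈ Dom D b, ∀ q ∈ Dom D b, ∃ u : Pt a b → ℂ,
    DifferentiableOn ℂ u {x | x ∈ V p ∧ ρ δ x ∈ V q} ∧
    ∀ x ∈ V p, ρ δ x ∈ V q → u x ≠ 0 ∧ s p x = u x * s q (ρ δ x)

/-- `h` is a section of `O_X(k A)`: a meromorphic function on `X` which is holomorphic outside of `A`
and such that `h * s ^ k` is holomorphic. -/
structure IsSectionOf {a b : ℕ} (D : Set (Fin a → ℂ)) {Δ : Type*} [Group Δ]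
    (ρ : Δ → Pt a b → Pt a b) (V : Pt a b → Set (Pt a b)) (s : Pt a b → Pt a b → ℂ) (k : ℕ)
    (h : Pt a b → ℂ) : Prop where
  invariant : ∀ δ, ∀ x ∈ Dom D b, s x x ≠ 0 → h (ρ δ x) = h x
  hol : ∀ p ∈ Dom D b, ∃ t : Pt a b → ℂ, DifferentiableOn ℂ t (V p) ∧
    ∀ x ∈ V p, s p x ≠ 0 → t x = h x * s p x ^ k

/-- `κ(A) ≥ p`: for some `k ≥ 1` there are `p + 1` sections `h_0, ..., h_p` of `O_X(k A)` whose
quotients `h_i / h_0`, `i ≥ 1`, have linearly independent differentials at some point outside of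
`A`. -/
def IitakaGe {a b : ℕ} (D : Set (Fin a → ℂ)) {Δ : Type*} [Group Δ] (ρ : Δ → Pt a b → Pt a b)
    (V : Pt a b → Set (Pt a b)) (s : Pt a b → Pt a b → ℂ) (p : ℕ) : Prop :=
  ∃ k, 1 ≤ k ∧ ∃ h : Fin (p + 1) → Pt a b → ℂ, (∀ i, IsSectionOf D ρ V s k (h i)) ∧
    ∃ x₀ ∈ Dom D b, s x₀ x₀ ≠ 0 ∧ h 0 x₀ ≠ 0 ∧
      LinearIndependent ℂ fun i : Fin p => fderiv ℂ (fun x => h i.succ x / h 0 x) x₀

/-- `f = exp ψ` with `ψ` plurisubharmonic on `U` (or `-∞`): `f ≥ 0` is upper semicontinuous and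
`log f (x)` is at most the mean value over the circle `x + e^{iθ} v` of every continuous function
`c ≥ log f`, whenever the closed disc `x + t v`, `|t| ≤ 1`, is contained in `U`. -/
def IsLogPsh {a b : ℕ} (U : Set (Pt a b)) (f : Pt a b → ℝ) : Prop :=
  (∀ x ∈ U, 0 ≤ f x) ∧ UpperSemicontinuousOn f U ∧
    ∀ x v : Pt a b, (∀ t : ℂ, ‖t‖ ≤ 1 → x + t • v ∈ U) → ∀ c : ℝ → ℝ, Continuous c →
      (∀ θ : ℝ, f (x + Complex.exp (θ * Complex.I) • v) ≤ Real.exp (c θ)) →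
      f x ≤ Real.exp ((∫ θ in (0 : ℝ)..(2 * Real.pi), c θ) / (2 * Real.pi))

/-- `m K_X - A` is pseudo-effective: there is a singular metric on `m K_X` with semipositive
curvature, not identically infinite, of weight `log E^2`, which vanishes along `A`. -/
def IsPseudoeffectiveRest {a b : ℕ} (D : Set (Fin a → ℂ)) {Δ : Type*} [Group Δ]
    (ρ : Δ → Pt a b → Pt a b) (s : Pt a b → Pt a b → ℂ) (m : ℕ) : Prop :=
  ∃ E : Pt a b → ℝ, IsLogPsh (Dom D b) E ∧ (∃ x ∈ Dom D b, E x ≠ 0) ∧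
    (∀ δ, ∀ x ∈ Dom D b, E (ρ δ x) * ‖(Jac (ρ δ) x).det‖ ^ m = E x) ∧
    ∀ p ∈ Dom D b, ∃ C : ℝ, ∀ᶠ x in 𝓝 p, E x ≤ C * ‖s p x‖

/-- **The Campana-Peternell inequality.** Let `D` be a bounded domain of `ℂ^a`, let the compact
quotient `X` of `D × ℂ^b` by `Δ` be Kähler, and let a subgroup of finite index of `Δ` preserve `T_D`
and the coordinate lines of `ℂ^b`. Then `κ(X) = a`, and if `A` is an effective divisor and `m ≥ 1`
such that `m K_X - A` is pseudo-effective, then `κ(A) ≤ κ(X)`. -/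
theorem result {a b : ℕ} {D : Set (Fin a → ℂ)} (hD : IsBoundedDomain D) {Δ : Type*} [Group Δ]
    (ρ : Δ → Pt a b → Pt a b) (hρ : IsUniform D ρ) (Δ0 : Subgroup Δ) (hfin : Δ0.FiniteIndex)
    (hsplit : PreservesSplitting D ρ Δ0)
    (g : Pt a b → Matrix (Fin a ⊕ Fin b) (Fin a ⊕ Fin b) ℂ) (hg : IsKahler D ρ g)
    {V : Pt a b → Set (Pt a b)} {s : Pt a b → Pt a b → ℂ} (hA : IsEffectiveDivisor D ρ V s)
    {m : ℕ} (_hm : 1 ≤ m) (hB : IsPseudoeffectiveRest D ρ s m) :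
    (∀ p, KodairaGe D ρ p ↔ p ≤ a) ∧ ∀ p, IitakaGe D ρ V s p → KodairaGe D ρ p := by
  obtain ⟨R, hR⟩ := hD.bounded.exists_norm_le
  have h1 : H906.BD.HolAct (H906.BD.Tot D (Fin b)) ρ := ⟨hρ.maps, hρ.one, hρ.mul, hρ.hol⟩
  have h2 : H906.BD.Kahler (H906.BD.Tot D (Fin b)) g := ⟨hg.smooth, hg.pos, hg.closed⟩
  have h3 : H906.BD.InvForm (H906.BD.Tot D (Fin b)) ρ g := hg.invariant
  obtain ⟨⟨L, hL, hLt⟩, l, hl, F₀, F, hF₀, hF, x₀, hx₀, hne, hli⟩ :=
    H906.BD.Q.kodaira_ge hD.isOpen hD.connected.isPreconnected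
      hD.connected.nonempty hR h1 hρ.properlyDiscontinuous hρ.cocompact hfin
      (fun δ hδ x hx j i => (hsplit δ hδ x hx).2 i j)
      (fun δ hδ x hx j j' hjj =>
        (hsplit δ hδ x hx).1 j' (Sum.inr j) fun h => hjj (Sum.inr_injective h)) h2 h3
  have hκ : ∀ p, p ≤ a → KodairaGe D ρ p := by
    intro p hp
    refine ⟨l, hl, Fin.cons F₀ fun i => F (Fin.castLE hp i), fun i => ?_, x₀, hx₀, ?_, ?_⟩
    · refine Fin.cases ?_ (fun i => ?_) i
      · exact hF₀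
      · exact hF _
    · exact hne
    · exact hli.comp _ (Fin.castLE_injective hp)
  obtain ⟨E, hE1, hE2, hE3, hE4⟩ := hB
  refine ⟨fun p => ⟨?_, hκ p⟩, ?_⟩
  · rintro ⟨l', hl', F', hF', y, hy, h0, hhli⟩
    have h6 := H906.BD.Q.kodaira_le hD.isOpen hL hLt (fun i => hF' i) hy h0 hhli
    rwa [Fintype.card_fin] at h6
  rintro p ⟨k, hk, h, hh, y, hy, hsy, h0, hhli⟩
  have hp : p ≤ a := by
    have h4 : H906.BD.Q.IsDivisor (H906.BD.Tot D (Fin b)) ρ V s :=
      ⟨hA.isOpen, hA.mem, hA.sub, hA.hol, hA.dense, hA.invariant⟩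
    have h5 : H906.BD.Q.IsPsefRest (H906.BD.Tot D (Fin b)) ρ s m E := ⟨hE1, hE2, hE3, hE4⟩
    have h6 := H906.BD.Q.iitaka_le hD.isOpen hD.connected.isPreconnected h1 hL hLt h4 h5
      (fun i => ⟨(hh i).invariant, (hh i).hol⟩) hy hsy h0 hhli
    rwa [Fintype.card_fin] at h6
  exact hκ p hp

end Pool.Agent.Results.MP_370cf3_ag.BoundedDomainTimesCb
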