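import Mathlib
import Pool.Agent.H890.Dvs4

/-!
MP_370cf3_ag, Q1: adjoint bundles. The conjecture of Campana and Peternell for manifolds implies (is
equivalent to) the conjecture for the divisors `K_X + (1 / N) D` on manifolds `X`, `D` being a smooth
divisor which is divisible by `N ≥ 3` in the Picard group.
-/

set_option autoImplicit false

namespace Pool.Agent.Results.MP_370cf3_ag.FermatBundles

open FF Pool.Agent.Y172 Pool.Agent.R887 Pool.Agent.H890

/-- (1) Let `X` be a projective manifold over `ℂ` of dimension `n ≥ 1` with function field `K` (`y`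
is its generic point, in homogeneous coordinates). Let `D` be a smooth divisor on `X` (it may be zero
or disconnected) which is linearly equivalent to `N Λ`, `Λ` being a divisor, `N = r + 2 ≥ 3`, the
divisor of the function `s` being `D - N Λ`. Then there is a projective manifold `V` of dimension
`n + N - 2`, with generic point `v` and function field `M`, with the following properties.

* `M` is the function field of the Fermat hypersurface
  `z_0 ^ N + s z_1 ^ N + z_2 ^ N + … + z_{N-1} ^ N = 0` in `P ^ (N - 1)` over `K`.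
* The Kodaira dimension of `V` is the Iitaka dimension of `K_X + (1 / N) D` (which is `ℚ`-linearly
  equivalent to the adjoint divisor `K_X + Λ`).
* If the conjecture of Campana and Peternell is true for `V`, then it is true for `K_X + (1 / N) D`: if
  this divisor is `ℚ`-linearly equivalent to `A + B`, `A` being an effective and `B` a
  pseudo-effective `ℚ`-divisor on `X`, then `κ (K_X + (1 / N) D) ≥ κ (A)`.

(2) Hence Q1 (for manifolds of all dimensions `≥ 1`) is equivalent to the same statement for all
divisors `K_X + (1 / N) D` with `X, D, Λ, N` as in (1). -/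
theorem result :
    (∀ (K : Type) [Field K] [Algebra ℂ K] (n r N : ℕ) (y : Fin (N + 1) → K)
      (D Λ : Place ℂ K → ℤ) (s : K), Algebra.trdeg ℂ K = n → 1 ≤ n → 1 ≤ r →
      NormalModel y → SmoothPair y n D → Divides y n (r + 2) D Λ s →
      ∃ (M : Type) (_ : Field M) (_ : Algebra ℂ M) (_ : Algebra K M) (_ : IsScalarTower ℂ K M)
        (z : Fin (r + 2) → M) (N' : ℕ) (v : Fin (N' + 1) → M), FermatField K s r 1 z ∧
        Algebra.trdeg ℂ M = (n + r : ℕ) ∧ NormalModel v ∧ SmoothVariety v (n + r) ∧
        (∀ C C', CanonicalDivisor y n C → CanonicalDivisor v (n + r) C' → ∀ k,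
          (KappaGe v C' k ↔ KappaGe y (C + fun P => (1 : ℚ) / (r + 2 : ℕ) * D P) k)) ∧
        (CampanaPeternell v (n + r) 0 →
          CampanaPeternell y n fun P => (1 : ℚ) / (r + 2 : ℕ) * D P)) ∧
    ((∀ (K : Type) [Field K] [Algebra ℂ K] (n N : ℕ) (y : Fin (N + 1) → K),
        Algebra.trdeg ℂ K = n → 1 ≤ n → NormalModel y → SmoothVariety y n →
        CampanaPeternell y n 0) ↔
      ∀ (K : Type) [Field K] [Algebra ℂ K] (n r N : ℕ) (y : Fin (N + 1) → K)
        (D Λ : Place ℂ K → ℤ) (s : K), Algebra.trdeg ℂ K = n → 1 ≤ n → 1 ≤ r →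
        NormalModel y → SmoothPair y n D → Divides y n (r + 2) D Λ s →
        CampanaPeternell y n fun P => (1 : ℚ) / (r + 2 : ℕ) * D P) := by
  refine ⟨fun K _ _ n r N y D Λ s hn hn1 hr hy hsm hD =>
    fermat_campana K hr hn1 hn hy hD hsm, ⟨fun h => ?_, fun h => ?_⟩⟩
  · intro K _ _ n r N y D Λ s hn hn1 hr hy hsm hD
    obtain ⟨M, _, _, _, _, z, N', v, -, h2, h3, h4, -, h5⟩ :=
      fermat_campana K hr hn1 hn hy hD hsm
    exact h5 (h M _ N' v h2 (by omega) h3 h4)
  · intro K _ _ n N y hn hn1 hy hsm
    have h1 := h K n 1 N y 0 0 1 hn hn1 le_rfl hy (smoothPair_zero hy hsm) (divides_zero y n 3)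
    have h2 : (fun P : Place ℂ K => (1 : ℚ) / (1 + 2 : ℕ) *
        (((0 : Place ℂ K → ℤ) P : ℤ) : ℚ)) = 0 := by
      funext P
      simp
    rwa [h2] at h1

end Pool.Agent.Results.MP_370cf3_ag.FermatBundles
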