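import Pool.Agent.H897.CP

/-!
MP_370cf3_ag, Q1: the conjecture of Campana and Peternell, for the Iitaka dimension and for the
numerical dimension of the effective part, for varieties with tensors which are semistable along the
generic fibre of their moduli map.

**The variety.** `NormalModel y` (`Pool/Agent/Y172/Defs.lean`): `y` is the generic point, in
homogeneous coordinates, of a normal projective variety `X` with function field `K`, for instance a
projective manifold; `IsPrimeDivisor y P` says that the valuation `P` of `K` is a prime divisor of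
`X`. Divisors are given by their multiplicities. `kodairaDim y n 0`: the Kodaira dimension of `K_X`.
`PsefSub y n 0 D` (`Pool/Agent/Y191`): `K_X - D` is pseudo-effective; `IitakaGe y D h`: the Iitaka
dimension of `D` is at least `h`; `Fn y L f`: `f` is a section of `L`, `div f + L ≥ 0`.

**The tensors** (`Pool/Agent/H897/TS.lean`, `TI.lean`). `Twisted a T`: `T` is a rational section of
`(Ω¹) ^ ⊗ m ⊗ O (a K_X)`, `HoloAt P T`: it is holomorphic along the prime divisor `P`. The `a i` may
be negative, with `m i + n * a i ≥ 1`. `Moduli a T E`: the quotients of the values of two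
semi-invariants of `GL n` of the same weight; they generate a field `F`, the function field of the
image `Z` of the moduli map. `GoodCentre y F T Q`: the centre of the place `Q` is a smooth point at
which the tensors `T i` are semistable (Hilbert-Mumford), or the moduli map is regular at the centre
and the `T i` are semistable at the generic points of all prime divisors through the centre.

**Theorem.** Suppose that this holds for every place which is trivial on `F`, that is, at every point
of the generic fibre of the moduli map. Let `D` be an effective `ℚ`-divisor such that `K_X - D` is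
pseudo-effective (that is `K_X = D + B`, `B` pseudo-effective). Then `κ (K_X) = dim Z`, and both
the Iitaka dimension and the numerical dimension of `D` are at most `κ (K_X)`: for every effective
`A` the number of the sections of `m D + A` is at most `C m ^ κ (K_X)`.
-/

set_option autoImplicit false

open FF Pool.Agent.W602.GT Pool.Agent.Y172 Pool.Agent.NH31 Pool.Agent.H897 Pool.Agent.Y191

namespace Pool.Agent.Results.MP_370cf3_ag.SemistableTensors

/-- **The conjecture of Campana and Peternell for varieties with semistable tensors.** -/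
theorem result {K : Type} [Field K] [Algebra ℂ K] {N n : ℕ} {y : Fin (N + 1) → K}
    (hy : NormalModel y) (hn : Algebra.trdeg ℂ K = n) (hn1 : 1 ≤ n) {ι : Type} [Finite ι]
    {m : ι → ℕ} (hm : ∀ i, 1 ≤ m i) {a : ι → ℤ} (ha : ∀ i, 1 ≤ (m i : ℤ) + n * a i)
    {T : (i : ι) → (Fin n → Derivation ℂ K K) →
      MultilinearMap K (fun _ : Fin (m i) => Derivation ℂ K K) K}
    (hT : ∀ i, Twisted (a i) (T i)) (hh : ∀ P, IsPrimeDivisor y P → ∀ i, HoloAt P (T i))
    {E : Fin n → Derivation ℂ K K} (hE : IsFrame E)
    (hss : ∀ Q : Place ℂ K, Horizontal (IntermediateField.adjoin ℂ (Moduli a T E)) Q →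
      GoodCentre y (IntermediateField.adjoin ℂ (Moduli a T E)) T Q) :
    ∃ κ : ℕ, Algebra.trdeg ℂ (IntermediateField.adjoin ℂ (Moduli a T E)) = κ ∧
      kodairaDim y n 0 = κ ∧
      ∀ D : Place ℂ K → ℚ, Effective y D → PsefSub y n 0 D →
        (∀ h : ℕ, IitakaGe y D h → h ≤ κ) ∧
        ∀ A, Effective y A → ∃ C : ℕ, ∀ m : ℕ, 1 ≤ m → ∀ (r : ℕ) (f : Fin r → K),
          LinearIndependent ℂ f → (∀ i, Fn y (m • D + A) (f i)) → r ≤ C * m ^ κ := by
  obtain ⟨κ, hκ, m0, ω, hm0, hω, hω0, hind, hF, hup⟩ :=
    ts_growth hy hn hn1 hm ha hT hh hE hss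
  have heff : Effective y (0 : Place ℂ K → ℚ) := ⟨fun P _ => le_rfl, by simp⟩
  obtain ⟨h1, -⟩ := dims heff hE (fun A hA => hup A hA.2) hm0 hω hω0 hind
  refine ⟨κ, hκ, h1, fun D hD hps => ⟨fun h hI => ?_, fun A hA => cp_num hE hup hD hps hA⟩⟩
  obtain ⟨H, hH, m1, hm1, hs⟩ := hps
  obtain ⟨C, hC⟩ := hup H hH.2
  exact cp_bound hE hC hm1 hs hI

end Pool.Agent.Results.MP_370cf3_ag.SemistableTensors
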